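import Pool.Agent.H84.S2.TgB
import Pool.Agent.H86.SF.LOC

/-!
# MP_70ba79_ag, THEOREM S, part 2: row B_EVD (s2l_modules)

The local inequality at a place with the centre on the curve.
-/

set_option autoImplicit false

namespace Pool.Agent.H66.S2

open MvPolynomial SC
open Pool.Agent.H27.LV (ge deg poleOrder canDeg ge_const ge_zero ge_one ge_sum)
open Pool.Agent.H84.SM (cr dt dp)
open Pool.Agent.H84.SL (pd)
open Pool.Agent.H92.SF (Q2)
open Pool.Agent.H3.SF (Itg Bb BB Hm eu grd hes Sfc Crd Cnn Crf Prm nv Vl VQ evc FE E)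
open Pool.Agent.H84.SF
open Pool.Agent.H3.S2
open Pool.Agent.H84.S2
open Pool.Agent.H86.SF (nv_zero aeval_hs bX val_bX phi_bX)

section Two

variable {K : Type} [Field K]

/-- evaluation of a form in two variables -/
theorem eval_two {n : ℕ} {R : MvPolynomial (Fin 2) K} (hR : R.IsHomogeneous n) (a b : K) :
    eval ![a, b] R = ∑ i ∈ Finset.range (n + 1), a ^ (n - i) * b ^ i *
      R.coeff (Finsupp.single 0 (n - i) + Finsupp.single 1 i) := by
  classical
  have hinj : Set.InjOn (fun i : ℕ => (Finsupp.single 0 (n - i) + Finsupp.single 1 i :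
      Fin 2 →₀ ℕ)) (Finset.range (n + 1) : Finset ℕ) := by
    intro i _ j _ h
    have h1 := DFunLike.congr_fun h 1
    simpa using h1
  have hsub : R.support ⊆ (Finset.range (n + 1)).image
      (fun i : ℕ => (Finsupp.single 0 (n - i) + Finsupp.single 1 i : Fin 2 →₀ ℕ)) := by
    intro d hd
    have h1 : d 0 + d 1 = n := by
      by_contra h
      apply mem_support_iff.1 hd
      apply hR.coeff_eq_zero
      intro h2
      apply h
      rw [← h2, Finsupp.degree_eq_sum, Fin.sum_univ_two]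
    refine Finset.mem_image.2 ⟨d 1, Finset.mem_range.2 (by omega), ?_⟩
    ext i
    fin_cases i
    · simp
      omega
    · simp
  rw [eval_eq', Finset.sum_subset hsub (fun d _ hd => by rw [notMem_support_iff.1 hd, zero_mul]),
    Finset.sum_image hinj]
  refine Finset.sum_congr rfl fun i _ => ?_
  rw [Fin.prod_univ_two]
  simp
  ring

/-- the coefficients of a form of linear forms -/
theorem eval_lin {n : ℕ} {P : MvPolynomial (Fin 2) K} (hP : P.IsHomogeneous n)
    (A1 B1 A2 B2 a b : K) :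
    eval ![a * A1 + b * B1, a * A2 + b * B2] P = ∑ i ∈ Finset.range (n + 1),
      a ^ (n - i) * b ^ i * (aeval (![C A1 * X 0 + C B1 * X 1, C A2 * X 0 + C B2 * X 1] :
        Fin 2 → MvPolynomial (Fin 2) K) P).coeff
          (Finsupp.single 0 (n - i) + Finsupp.single 1 i) := by
  have h1 : (aeval (![C A1 * X 0 + C B1 * X 1, C A2 * X 0 + C B2 * X 1] :
        Fin 2 → MvPolynomial (Fin 2) K) P).IsHomogeneous n := by
    have h := hP.aeval (![C A1 * X 0 + C B1 * X 1, C A2 * X 0 + C B2 * X 1] :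
        Fin 2 → MvPolynomial (Fin 2) K) (n := 1) (by
      intro i
      fin_cases i
      · exact (isHomogeneous_C_mul_X _ _).add (isHomogeneous_C_mul_X _ _)
      · exact (isHomogeneous_C_mul_X _ _).add (isHomogeneous_C_mul_X _ _))
    rwa [one_mul] at h
  rw [← eval_two h1 a b]
  have h2 : ∀ Q : MvPolynomial (Fin 2) K, eval ![a, b] (aeval (![C A1 * X 0 + C B1 * X 1,
      C A2 * X 0 + C B2 * X 1] : Fin 2 → MvPolynomial (Fin 2) K) Q) =
      eval ![a * A1 + b * B1, a * A2 + b * B2] Q := by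
    intro Q
    induction Q using MvPolynomial.induction_on with
    | C c => rw [algHom_C, algebraMap_eq, eval_C, eval_C]
    | add p q hp hq => rw [map_add, map_add, map_add, hp, hq]
    | mul_X p i hp =>
      rw [map_mul, map_mul, map_mul, hp, aeval_X, eval_X]
      congr 1
      fin_cases i
      · simp [mul_comm]
      · simp [mul_comm]
  exact (h2 P).symm

end Two

section Val

variable {k F K : Type} [Field k] [Field F] [Algebra k F] [Field K] [Algebra k K]
  {u : Fin 3 → F} {φ : Bb k u →ₐ[k] K}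

theorem vl_add (hV : Pool.Agent.H3.SF.T_VLA) {a a' : F} {b b' : K} (h : Vl u φ a b)
    (h' : Vl u φ a' b') : Vl u φ (a + a') (b + b') := ((hV k F K u φ).2.1 a a' b b' h h').1

theorem vl_mul (hV : Pool.Agent.H3.SF.T_VLA) {a a' : F} {b b' : K} (h : Vl u φ a b)
    (h' : Vl u φ a' b') : Vl u φ (a * a') (b * b') := ((hV k F K u φ).2.1 a a' b b' h h').2

theorem vl_cst (hV : Pool.Agent.H3.SF.T_VLA) (c : k) :
    Vl u φ (algebraMap k F c) (algebraMap k K c) := (hV k F K u φ).2.2.2.2 c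

theorem vl_zero (hV : Pool.Agent.H3.SF.T_VLA) : Vl u φ (0 : F) (0 : K) := by
  have h := vl_cst (u := u) (φ := φ) hV 0
  rwa [map_zero, map_zero] at h

theorem vl_one (hV : Pool.Agent.H3.SF.T_VLA) : Vl u φ (1 : F) (1 : K) := by
  have h := vl_cst (u := u) (φ := φ) hV 1
  rwa [map_one, map_one] at h

theorem vl_sub (hV : Pool.Agent.H3.SF.T_VLA) {a a' : F} {b b' : K} (h : Vl u φ a b)
    (h' : Vl u φ a' b') : Vl u φ (a - a') (b - b') := by
  have h1 := vl_cst (u := u) (φ := φ) hV (-1)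
  rw [map_neg, map_neg, map_one, map_one] at h1
  have h2 := vl_add hV h (vl_mul hV h1 h')
  rwa [neg_one_mul, neg_one_mul, ← sub_eq_add_neg, ← sub_eq_add_neg] at h2

theorem vl_pow (hV : Pool.Agent.H3.SF.T_VLA) {a : F} {b : K} (h : Vl u φ a b) (n : ℕ) :
    Vl u φ (a ^ n) (b ^ n) := by
  induction n with
  | zero =>
    rw [pow_zero, pow_zero]
    exact vl_one hV
  | succ n ih =>
    rw [pow_succ, pow_succ]
    exact vl_mul hV ih h

theorem vl_sum (hV : Pool.Agent.H3.SF.T_VLA) {ι : Type} (s : Finset ι) (f : ι → F) (g : ι → K)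
    (h : ∀ i ∈ s, Vl u φ (f i) (g i)) : Vl u φ (∑ i ∈ s, f i) (∑ i ∈ s, g i) := by
  classical
  induction s using Finset.induction_on with
  | empty =>
    rw [Finset.sum_empty, Finset.sum_empty]
    exact vl_zero hV
  | insert i s hi ih =>
    rw [Finset.sum_insert hi, Finset.sum_insert hi]
    exact vl_add hV (h i (Finset.mem_insert_self _ _))
      (ih fun j hj => h j (Finset.mem_insert_of_mem hj))

/-- polynomials whose coefficients are values -/
def Vm (u : Fin 3 → F) (φ : Bb k u →ₐ[k] K) (P : MvPolynomial (Fin 2) F)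
    (Q : MvPolynomial (Fin 2) K) : Prop := ∀ d, Vl u φ (P.coeff d) (Q.coeff d)

theorem vm_add (hV : Pool.Agent.H3.SF.T_VLA) {P P' : MvPolynomial (Fin 2) F}
    {Q Q' : MvPolynomial (Fin 2) K} (h : Vm u φ P Q) (h' : Vm u φ P' Q') :
    Vm u φ (P + P') (Q + Q') := by
  intro d
  rw [coeff_add, coeff_add]
  exact vl_add hV (h d) (h' d)

theorem vm_mul (hV : Pool.Agent.H3.SF.T_VLA) {P P' : MvPolynomial (Fin 2) F}
    {Q Q' : MvPolynomial (Fin 2) K} (h : Vm u φ P Q) (h' : Vm u φ P' Q') :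
    Vm u φ (P * P') (Q * Q') := by
  intro d
  rw [coeff_mul, coeff_mul]
  exact vl_sum hV _ _ _ fun i _ => vl_mul hV (h _) (h' _)

theorem vm_C (hV : Pool.Agent.H3.SF.T_VLA) {a : F} {b : K} (h : Vl u φ a b) :
    Vm u φ (C a) (C b) := by
  intro d
  rw [coeff_C, coeff_C]
  split_ifs
  · exact h
  · exact vl_zero hV

theorem vm_X (hV : Pool.Agent.H3.SF.T_VLA) (i : Fin 2) :
    Vm u φ (X i : MvPolynomial (Fin 2) F) (X i : MvPolynomial (Fin 2) K) := by
  intro d
  rw [coeff_X, coeff_X]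
  split_ifs
  · exact vl_one hV
  · exact vl_zero hV

theorem vm_pow (hV : Pool.Agent.H3.SF.T_VLA) {P : MvPolynomial (Fin 2) F}
    {Q : MvPolynomial (Fin 2) K} (h : Vm u φ P Q) (n : ℕ) : Vm u φ (P ^ n) (Q ^ n) := by
  induction n with
  | zero =>
    rw [pow_zero, pow_zero, ← C_1, ← C_1]
    exact vm_C hV (vl_one hV)
  | succ n ih =>
    rw [pow_succ, pow_succ]
    exact vm_mul hV ih h

theorem vm_sum (hV : Pool.Agent.H3.SF.T_VLA) {ι : Type} (s : Finset ι)
    (f : ι → MvPolynomial (Fin 2) F) (g : ι → MvPolynomial (Fin 2) K)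
    (h : ∀ i ∈ s, Vm u φ (f i) (g i)) : Vm u φ (∑ i ∈ s, f i) (∑ i ∈ s, g i) := by
  intro d
  rw [coeff_sum, coeff_sum]
  exact vl_sum hV _ _ _ fun i hi => h i hi d

theorem vm_aeval (hV : Pool.Agent.H3.SF.T_VLA) {P : MvPolynomial (Fin 2) F}
    {Q : MvPolynomial (Fin 2) K} (h : Vm u φ P Q) {f : Fin 2 → MvPolynomial (Fin 2) F}
    {g : Fin 2 → MvPolynomial (Fin 2) K} (hfg : ∀ i, Vm u φ (f i) (g i)) :
    Vm u φ (aeval f P) (aeval g Q) := by
  classical
  have e1 : aeval f P = ∑ d ∈ P.support ∪ Q.support, C (P.coeff d) * ∏ i, f i ^ d i := by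
    rw [aeval_def, eval₂_eq']
    exact Finset.sum_subset Finset.subset_union_left fun d _ hd => by
      rw [notMem_support_iff.1 hd, map_zero, zero_mul]
  have e2 : aeval g Q = ∑ d ∈ P.support ∪ Q.support, C (Q.coeff d) * ∏ i, g i ^ d i := by
    rw [aeval_def, eval₂_eq']
    exact Finset.sum_subset Finset.subset_union_right fun d _ hd => by
      rw [notMem_support_iff.1 hd, map_zero, zero_mul]
  rw [e1, e2]
  refine vm_sum hV _ _ _ fun d _ => vm_mul hV (vm_C hV (h d)) ?_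
  rw [Fin.prod_univ_two, Fin.prod_univ_two]
  exact vm_mul hV (vm_pow hV (hfg 0) _) (vm_pow hV (hfg 1) _)

theorem vm_lin (hV : Pool.Agent.H3.SF.T_VLA) {P : MvPolynomial (Fin 2) F}
    {Q : MvPolynomial (Fin 2) K} (h : Vm u φ P Q) {A1 B1 A2 B2 : F} {A1' B1' A2' B2' : K}
    (h1 : Vl u φ A1 A1') (h2 : Vl u φ B1 B1') (h3 : Vl u φ A2 A2') (h4 : Vl u φ B2 B2') :
    Vm u φ (aeval (![C A1 * X 0 + C B1 * X 1, C A2 * X 0 + C B2 * X 1] :
        Fin 2 → MvPolynomial (Fin 2) F) P)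
      (aeval (![C A1' * X 0 + C B1' * X 1, C A2' * X 0 + C B2' * X 1] :
        Fin 2 → MvPolynomial (Fin 2) K) Q) := by
  refine vm_aeval hV h fun i => ?_
  fin_cases i
  · exact vm_add hV (vm_mul hV (vm_C hV h1) (vm_X hV 0)) (vm_mul hV (vm_C hV h2) (vm_X hV 1))
  · exact vm_add hV (vm_mul hV (vm_C hV h3) (vm_X hV 0)) (vm_mul hV (vm_C hV h4) (vm_X hV 1))

theorem vl_cr (hV : Pool.Agent.H3.SF.T_VLA) {a b : Fin 3 → F} {a' b' : Fin 3 → K}
    (h : ∀ i, Vl u φ (a i) (a' i)) (h' : ∀ i, Vl u φ (b i) (b' i)) (i : Fin 3) :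
    Vl u φ (cr a b i) (cr a' b' i) := by
  unfold cr
  exact vl_sub hV (vl_mul hV (h _) (h' _)) (vl_mul hV (h _) (h' _))

end Val

section Ord

variable {k K : Type} [Field k] [Field K] [Algebra k K] {v : DV k K}

theorem ge_pow {t : ℤ} {x : K} (hx : ge v t x) (n : ℕ) : ge v (n * t) (x ^ n) := by
  induction n with
  | zero =>
    rw [pow_zero, Nat.cast_zero, zero_mul]
    exact ge_one v
  | succ n ih =>
    rw [pow_succ, Nat.cast_succ, add_mul, one_mul]
    exact ih.mul hx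

end Ord

set_option maxHeartbeats 1000000 in
theorem pf_EVD (hLDT : T_LDT) (hPOL : T_POL) (hCNY : T_CNY) (hHMK : T_HMK)
    (hVLA : Pool.Agent.H3.SF.T_VLA) : T_EVD := by
  intro k F σ K _ _ _ _ _ _ _ _ _ _ htr X u dd δ j0 c0 J hS hX m GP hm hN φ x g hcx hone hJx hgx
    hg n t V VK hVE hVd hVQ D v e hD hnv
  have hY : SYd X u dd J j0 :=
    ⟨hS.ind, hS.du, hS.comm, hX.ulin, hX.Xint, hX.Xeu, hS.Jh, hS.J0, hX.JI,
      fun a l ha => hS.Jd l a ha⟩
  obtain ⟨-, c, s, hc, hcP, hs0, hcone, hcs⟩ := hCNY k F σ K htr X u dd J j0 hY φ x hcx hone v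
  obtain ⟨U, hU⟩ := Classical.axiomOfChoice hY.ulin
  obtain ⟨z, hz⟩ : ∃ z : σ → K, z = fun i => φ (bX hY.Xint i) := ⟨_, rfl⟩
  have hcen : ∀ i, ge v 1 (c * z i - algebraMap k K (s i)) := by
    rw [hz]
    exact fun i => hcs i (bX hY.Xint i) rfl
  have hφ : ∀ f : MvPolynomial σ k, φ (aeval (bX hY.Xint) f) = aeval z f := fun f =>
    phi_bX hY.Xint φ z (fun i => by rw [hz]) f
  have hval : ∀ f : MvPolynomial σ k, ((aeval (bX hY.Xint) f : Bb k u) : F) = aeval X f :=
    val_bX hY.Xint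
  have hz0 : ∀ f : MvPolynomial σ k, aeval X f = 0 → aeval z f = 0 := by
    intro f hf
    have h1 : aeval (bX hY.Xint) f = 0 := Subtype.ext ((hval f).trans hf)
    rw [← hφ, h1, map_zero]
  have hxU : ∀ l, x l = aeval z (U l) := by
    intro l
    rw [← hcx l (aeval (bX hY.Xint) (U l)) (by rw [hval]; exact (hU l).2), hφ]
  have hgG : g = aeval z GP := by
    rw [← hgx (aeval (bX hY.Xint) GP) (hval GP), hφ]
  have hGs0 : eval s GP = 0 := by
    by_contra h
    apply hnv
    have h1 := (nv_zero (x := x) hc hcP hcen hN.hom h).2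
    rwa [← hgG] at h1
  obtain ⟨L0, ε, p, r, q, Gs, hl0, hv0, hp, hGs, heps, -, hab, hsec⟩ :=
    hLDT k F σ X u dd J j0 hY m GP hm hN s hs0 hcone hGs0
  obtain ⟨y, hy1, hy2, hy3⟩ := hHMK k F σ K X s hcone z hz0 v c hc hcen
  obtain ⟨hL, hLo⟩ := nv_zero (x := x) hc hcP hcen hl0 hv0
  have hLX : aeval X L0 ≠ 0 := fun h => hL (hz0 L0 h)
  have hyG : y Gs ≠ 0 := by
    intro h
    have h1 := hy1 Gs m GP (L0 ^ m) ⟨hN.hom, by
      have h2 := hl0.pow m
      rwa [one_mul] at h2, by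
      rw [map_pow]
      exact hGs⟩
    rw [h, zero_mul, ← hgG] at h1
    exact hg h1.symm
  obtain ⟨a, b, ha, hb, hDp⟩ := hab K y v hy2 (hy3 ε heps) hyG D e hD
  have hpol := hPOL k F u dd J m (aeval X GP) n t V hVE hVd (Os X s)
    (aeval u J ^ (2 * n + 1) * aeval X L0 ^ t) (aeval X L0 ^ ((2 * n + 1) * j0))
    (fun l => aeval X L0 * (r l : F)) (fun l => aeval X L0 * (q l : F)) (pow_ne_zero _ hLX) (by
      intro μ
      obtain ⟨f, hf⟩ := hsec n t V hVE hVd μ
      refine ⟨f, ?_⟩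
      rw [hf]
      congr 2
      funext l
      rw [mul_add, mul_smul_comm])
  -- values
  have hVf : ∀ f : MvPolynomial σ k, Vl u φ (aeval X f) (aeval z f) := by
    intro f
    have h1 := (hVLA k F K u φ).2.2.2.1 (aeval (bX hY.Xint) f)
    rwa [hval, hφ] at h1
  have hVy : ∀ h : Os X s, Vl u φ (h : F) (y h) := by
    intro h
    obtain ⟨d, a', b', hr, hb'⟩ := h.2
    refine ⟨aeval (bX hY.Xint) b', aeval (bX hY.Xint) a', ?_, ?_, ?_⟩
    · rw [hφ]
      exact (nv_zero (x := x) hc hcP hcen hr.2.1 hb').1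
    · rw [hval, hval, mul_comm]
      exact hr.2.2
    · rw [hφ, hφ, mul_comm]
      exact hy1 h d a' b' hr
  have hVu : ∀ l, Vl u φ (u l) (x l) := by
    intro l
    have h1 := hVf (U l)
    rwa [(hU l).2, ← hxU] at h1
  have hVJ : Vl u φ (aeval u J) (aeval x J) := by
    have h1 := hVf (bind₁ U J)
    rw [aeval_bind₁, aeval_bind₁] at h1
    rwa [show (fun i => aeval X (U i)) = u from funext fun l => (hU l).2,
      show (fun i => aeval z (U i)) = x from funext fun l => (hxU l).symm] at h1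
  -- the polynomial
  have huniq : ∀ {α : F} {β β' : K}, Vl u φ α β → Vl u φ α β' → β = β' := fun h h' =>
    (hVLA k F K u φ).1 _ _ _ h h'
  have hcof : ∀ j, j ≠ 0 → VK.coeff j = 0 := by
    intro j hj
    refine MvPolynomial.ext _ _ fun d => ?_
    have h1 := hVQ j d
    rw [Polynomial.coeff_eq_zero_of_natDegree_lt (by rw [hVd]; omega), coeff_zero] at h1
    rw [coeff_zero]
    exact huniq h1 (vl_zero hVLA)
  have hVKC : VK = Polynomial.C (VK.coeff 0) := by
    refine Polynomial.ext fun j => ?_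
    rw [Polynomial.coeff_C]
    split_ifs with h
    · rw [h]
    · exact hcof j h
  have hVh : (V.coeff 0).IsHomogeneous n := by
    have h1 := (hVE.1.1 0).1 (by omega)
    rwa [mul_zero, Nat.sub_zero] at h1
  have hQh : (VK.coeff 0).IsHomogeneous n := by
    intro d hd
    by_contra h
    apply hd
    have h1 := hVQ 0 d
    have h2 : (V.coeff 0).coeff d = 0 := by
      by_contra h3
      exact h (hVh h3)
    rw [h2] at h1
    exact huniq h1 (vl_zero hVLA)
  have hxp : ∀ l, x l = y (p l) * aeval z L0 := by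
    intro l
    rw [hxU]
    exact (hy1 (p l) 1 (U l) L0 ⟨(hU l).1, hl0, (hp l).trans (hU l).2.symm⟩).symm
  have hcr : ∀ i, cr x (fun i => D (x i)) i = a * cr x (fun l => aeval z L0 * y (r l)) i +
      b * cr x (fun l => aeval z L0 * y (q l)) i := by
    intro i
    have h1 : ∀ l, D (x l) = y (p l) * D (aeval z L0) +
        aeval z L0 * (a * y (r l) + b * y (q l)) := by
      intro l
      rw [hxp l, Derivation.leibniz, smul_eq_mul, smul_eq_mul, hDp l]
    unfold cr
    beta_reduce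
    rw [h1 (i + 2), h1 (i + 1), hxp (i + 1), hxp (i + 2)]
    ring
  have hev : evc D x VK = ∑ i ∈ Finset.range (n + 1), a ^ (n - i) * b ^ i *
      (aeval (![C (cr x (fun l => aeval z L0 * y (r l)) 1) * MvPolynomial.X 0 +
        C (cr x (fun l => aeval z L0 * y (q l)) 1) * MvPolynomial.X 1,
        C (cr x (fun l => aeval z L0 * y (r l)) 2) * MvPolynomial.X 0 +
        C (cr x (fun l => aeval z L0 * y (q l)) 2) * MvPolynomial.X 1] :
        Fin 2 → MvPolynomial (Fin 2) K) (VK.coeff 0)).coeff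
          (Finsupp.single 0 (n - i) + Finsupp.single 1 i) := by
    rw [← eval_lin hQh, ← hcr 1, ← hcr 2]
    conv_lhs => rw [hVKC]
    simp only [evc, Pool.Agent.H92.SF.ev2, Polynomial.coe_eval₂RingHom, Polynomial.eval₂_C]
    rfl
  rw [hev]
  have hLo' : v.ord (aeval z L0) = -(poleOrder v x : ℤ) := by
    have h1 := hLo
    unfold nv at h1
    push_cast at h1
    linarith
  refine ge_sum v _ _ _ fun i hi => ?_
  have hin : i ≤ n := by
    have := Finset.mem_range.1 hi
    omega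
  have hpw : ge v (n * e) (a ^ (n - i) * b ^ i) := by
    have h1 := (ge_pow ha (n - i)).mul (ge_pow hb i)
    have h2 : ((n - i : ℕ) : ℤ) * e + (i : ℤ) * e = n * e := by
      rw [← add_mul, Nat.cast_sub hin]
      ring
    rwa [h2] at h1
  rw [add_comm]
  refine hpw.mul ?_
  obtain ⟨f, hf⟩ := hpol i hin
  obtain ⟨W, hW⟩ : ∃ W : K, W = (aeval (![C (cr x (fun l => aeval z L0 * y (r l)) 1) * MvPolynomial.X 0 +
        C (cr x (fun l => aeval z L0 * y (q l)) 1) * MvPolynomial.X 1,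
        C (cr x (fun l => aeval z L0 * y (r l)) 2) * MvPolynomial.X 0 +
        C (cr x (fun l => aeval z L0 * y (q l)) 2) * MvPolynomial.X 1] :
        Fin 2 → MvPolynomial (Fin 2) K) (VK.coeff 0)).coeff
          (Finsupp.single 0 (n - i) + Finsupp.single 1 i) := ⟨_, rfl⟩
  rw [← hW]
  have hVr : ∀ l, Vl u φ (aeval X L0 * (r l : F)) (aeval z L0 * y (r l)) := fun l =>
    vl_mul hVLA (hVf L0) (hVy (r l))
  have hVq : ∀ l, Vl u φ (aeval X L0 * (q l : F)) (aeval z L0 * y (q l)) := fun l =>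
    vl_mul hVLA (hVf L0) (hVy (q l))
  have hWv : Vl u φ (Vi u (fun l => aeval X L0 * (r l : F)) (fun l => aeval X L0 * (q l : F))
      V n i) W := by
    rw [hW]
    exact vm_lin hVLA (fun d => hVQ 0 d) (vl_cr hVLA hVu hVr 1) (vl_cr hVLA hVu hVq 1)
      (vl_cr hVLA hVu hVr 2) (vl_cr hVLA hVu hVq 2) _
  have heq : y f * aeval z L0 ^ ((2 * n + 1) * j0) =
      aeval x J ^ (2 * n + 1) * aeval z L0 ^ t * W := by
    have h1 := vl_mul hVLA (hVy f) (vl_pow hVLA (hVf L0) ((2 * n + 1) * j0))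
    rw [hf] at h1
    exact huniq h1 (vl_mul hVLA (vl_mul hVLA (vl_pow hVLA hVJ _) (vl_pow hVLA (hVf L0) _)) hWv)
  by_cases hW0 : W = 0
  · rw [hW0]
    exact ge_zero v _
  refine Or.inr ?_
  have hr0 : aeval x J ^ (2 * n + 1) * aeval z L0 ^ t ≠ 0 :=
    mul_ne_zero (pow_ne_zero _ hJx) (pow_ne_zero _ hL)
  have hf0 : y f ≠ 0 := by
    intro h
    rw [h, zero_mul] at heq
    exact mul_ne_zero hr0 hW0 heq.symm
  have hfo := (hy2 f).resolve_left hf0
  have ho := congrArg v.ord heq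
  rw [v.ord_mul' hf0 (pow_ne_zero _ hL), v.ord_mul' hr0 hW0,
    v.ord_mul' (pow_ne_zero _ hJx) (pow_ne_zero _ hL), v.ord_pow, v.ord_pow, v.ord_pow,
    hLo'] at ho
  unfold nv
  push_cast at ho ⊢
  linarith

end Pool.Agent.H66.S2
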